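import Pool.Agent.H11.BD.OM2

/-!
# Project BD, part OM
-/

set_option autoImplicit false

open scoped ENNReal
open Finset

namespace Pool.Agent.H11.BD
open Pool.Agent.H3.BI OM

theorem t_OM : S_OM := by
  intro hGEO hSPR hSUH hBND hSD2 hMVI hMVO hCNT hLAT d hd
  obtain ⟨a1, ha1, hSUH⟩ := hSUH d hd
  obtain ⟨a2, ha2, hMVI⟩ := hMVI d hd
  obtain ⟨a3, ha3, hMVO⟩ := hMVO d hd
  refine ⟨max a1 (max a2 a3), le_max_of_le_left ha1, ?_⟩
  intro a b ha hb
  have ha1' : a1 ≤ a := (le_max_left _ _).trans ha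
  have hb1' : a1 ≤ b := (le_max_left _ _).trans hb
  have ha2' : a2 ≤ a := ((le_max_left _ _).trans (le_max_right _ _)).trans ha
  have ha3' : a3 ≤ a := ((le_max_right _ _).trans (le_max_right _ _)).trans ha
  obtain ⟨L, hL⟩ := LAT_of hLAT d hd
  obtain ⟨C1, hC1, hSUH⟩ := hSUH a b (1 / 2) ha1' hb1' (by norm_num) (by norm_num)
  obtain ⟨C2, hC2, hBND⟩ := hBND d a b 1 (1 / 2) hd (by linarith) (by linarith) (by norm_num)
    (by norm_num) (by norm_num)
  obtain ⟨C3, hC3, hSD2⟩ := hSD2 d a b (1 / 2) hd (by linarith) (by linarith) (by norm_num)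
    (by norm_num)
  obtain ⟨C4, hC4, hMVI⟩ := hMVI a ha2'
  obtain ⟨C5, hC5, hMVO⟩ := hMVO a (1 / 4) ha3' (by norm_num) (by norm_num)
  obtain ⟨hom, -⟩ := hCNT d hd
  obtain ⟨C8, hC8, hGEO⟩ := hGEO d (1 / 2) hd (by norm_num) (by norm_num)
  have hL1 := hL.one
  obtain ⟨K, hK1, hK2, hK3, hK4, hK5, hK6, hK7, hK8⟩ : ∃ K : ℝ, C1 ≤ K ∧ C2 ≤ K ∧ 2 * C3 ≤ K ∧
      C4 ≤ K ∧ C5 ≤ K ∧ C2 * C8 ≤ K ∧ 2 * C2 * (1 + C8) * C8 ≤ K ∧ 2 ^ d * C2 * C8 ≤ K := by
    have p1 : 0 ≤ C2 * C8 := by positivity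
    have p2 : 0 ≤ 2 * C2 * (1 + C8) * C8 := by positivity
    have p3 : 0 ≤ 2 ^ d * C2 * C8 := by positivity
    refine ⟨C1 + C2 + C4 + C5 + 2 * C3 + C2 * C8 + 2 * C2 * (1 + C8) * C8 + 2 ^ d * C2 * C8,
      ?_, ?_, ?_, ?_, ?_, ?_, ?_, ?_⟩ <;> linarith
  have hK : 1 ≤ K := by linarith
  obtain ⟨W, hW⟩ : ∃ W : ℝ, W = ((om d * d * K) + (3 + 2 ^ (d + 2)) * K ^ 2 * L +
    78 * K ^ 2 * L + 2 * K ^ 2 + 36 * K ^ 2 * L) := ⟨_, rfl⟩
  have hWnn : 0 ≤ W := by rw [hW]; positivity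
  refine ⟨2 * K + W, by linarith, ?_⟩
  intro R m z hCm hmR hz hz2 ρ h hh hhm h3 hCρ hρR hRρ
  have hKm : K ≤ m := by linarith
  have hm1 : 1 ≤ m := by linarith
  obtain ⟨N, hN⟩ : ∃ N : ℝ, N = nrm z + 2 * m := ⟨_, rfl⟩
  have hN0 : 0 < N := by linarith
  have hgeo : ∀ C : ℝ, C ≤ K → Geo (1 / 2) C N z := fun C hC =>
    ⟨by linarith, by linarith⟩
  obtain ⟨zs, -, hG, -⟩ := hGEO N z (hgeo 1 hK)
  rw [← hN]
  obtain ⟨u, hu⟩ : ∃ u : Site d → ℝ, u = uS d a b N z := ⟨_, rfl⟩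
  rw [← hu]
  -- basic facts for |x| ≤ R
  have hD : ∀ x, nrm x ≤ R → C2 ≤ Ez N z x - nsq (x - z) ∧ 0 < Ez N z x ∧
      (Ez N z x - nsq (x - z)) / Ez N z x ≤ 1 ∧ 0 ≤ (Ez N z x - nsq (x - z)) / Ez N z x ∧
      (nsq (x - z) + 1) * ((Ez N z x - nsq (x - z)) / Ez N z x) ≤
        (1 + C8) * (C8 * (2 * m) * (N - nrm x)) := by
    intro x hx
    obtain ⟨g1, g2, g3, g4⟩ := hG x (by linarith)
    have hNz : N - nrm z = 2 * m := by rw [hN]; ring
    rw [hNz] at g1 g3 g4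
    have hNx : 2 * m ≤ N - nrm x := by linarith
    have h1 : (2 * m) * (2 * m) ≤ 2 * m * (N - nrm x) :=
      mul_le_mul_of_nonneg_left hNx (by linarith)
    have h2 : C8 * C2 ≤ C8 * (Ez N z x - nsq (x - z)) := by
      have h5 : m * 1 ≤ m * m := mul_le_mul_of_nonneg_left hm1 (by linarith)
      have h6 : C8 * C2 = C2 * C8 := mul_comm _ _
      linarith
    have h3 : C2 ≤ Ez N z x - nsq (x - z) := le_of_mul_le_mul_left h2 (by linarith)
    have h4 := nsq_nonneg (x - z)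
    have h5 : 0 < Ez N z x := by linarith
    refine ⟨h3, h5, ?_, ?_, ?_⟩
    · rw [div_le_one h5]; linarith
    · apply div_nonneg _ h5.le; linarith
    · rw [mul_div_assoc', div_le_iff₀ h5]
      have h6 : nsq (x - z) + 1 ≤ (1 + C8) * Ez N z x := by
        have : (1 : ℝ) ≤ (2 * m) ^ 2 := one_le_pow₀ (by linarith)
        linarith
      calc (nsq (x - z) + 1) * (Ez N z x - nsq (x - z)) ≤
            ((1 + C8) * Ez N z x) * (C8 * (2 * m) * (N - nrm x)) :=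
            mul_le_mul h6 g3 (by linarith) (by positivity)
        _ = _ := by ring
  have hB : ∀ x, nrm x ≤ R → 0 ≤ u x ∧
      u x ≤ C2 * ((nsq (x - z) + 1) ^ (-bt d) * ((Ez N z x - nsq (x - z)) / Ez N z x)) := by
    intro x hx
    obtain ⟨d1, d2, d3, d4, d5⟩ := hD x hx
    obtain ⟨b1, b2, -, -⟩ := hBND N z (hgeo C2 hK2) x (by linarith) d1
    rw [← hu] at b1 b2
    refine ⟨?_, b2⟩
    have h5 : 0 ≤ C2 * u x := (mul_nonneg (Pnn x z) d4).trans b1
    exact nonneg_of_mul_nonneg_right h5 (by linarith)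
  have hu0 : ∀ x, nrm x ≤ R → 0 ≤ u x := fun x hx => (hB x hx).1
  have hu1 : ∀ x, nrm x ≤ R → u x ≤ K * (nsq (x - z) + 1) ^ (-bt d) := by
    intro x hx
    obtain ⟨d1, d2, d3, d4, d5⟩ := hD x hx
    refine (hB x hx).2.trans ?_
    have h5 : (nsq (x - z) + 1) ^ (-bt d) * ((Ez N z x - nsq (x - z)) / Ez N z x) ≤
        (nsq (x - z) + 1) ^ (-bt d) * 1 := mul_le_mul_of_nonneg_left d3 (Pnn x z)
    rw [mul_one] at h5
    exact mul_le_mul hK2 h5 (mul_nonneg (Pnn x z) d4) (by linarith)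
  have hu2 : ∀ x, nrm x ≤ R → u x ≤ K * m * (N - nrm x) *
      (nsq (x - z) + 1) ^ (-((d : ℝ) / 2)) := by
    intro x hx
    obtain ⟨d1, d2, d3, d4, d5⟩ := hD x hx
    refine (hB x hx).2.trans ?_
    rw [pow_PQ d _ (nsq_nonneg (x - z))]
    have h5 : (nsq (x - z) + 1) * (nsq (x - z) + 1) ^ (-((d : ℝ) / 2)) *
        ((Ez N z x - nsq (x - z)) / Ez N z x) =
        (nsq (x - z) + 1) ^ (-((d : ℝ) / 2)) *
        ((nsq (x - z) + 1) * ((Ez N z x - nsq (x - z)) / Ez N z x)) := by ring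
    rw [h5]
    have h6 : (nsq (x - z) + 1) ^ (-((d : ℝ) / 2)) *
        ((nsq (x - z) + 1) * ((Ez N z x - nsq (x - z)) / Ez N z x)) ≤
        (nsq (x - z) + 1) ^ (-((d : ℝ) / 2)) * ((1 + C8) * (C8 * (2 * m) * (N - nrm x))) :=
      mul_le_mul_of_nonneg_left d5 (Qnn x z)
    have h7 : C2 * ((nsq (x - z) + 1) ^ (-((d : ℝ) / 2)) *
        ((1 + C8) * (C8 * (2 * m) * (N - nrm x)))) =
        (2 * C2 * (1 + C8) * C8) * (m * (N - nrm x) * (nsq (x - z) + 1) ^ (-((d : ℝ) / 2))) := by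
      ring
    calc C2 * ((nsq (x - z) + 1) ^ (-((d : ℝ) / 2)) *
        ((nsq (x - z) + 1) * ((Ez N z x - nsq (x - z)) / Ez N z x))) ≤
          C2 * ((nsq (x - z) + 1) ^ (-((d : ℝ) / 2)) *
            ((1 + C8) * (C8 * (2 * m) * (N - nrm x)))) :=
          mul_le_mul_of_nonneg_left h6 (by linarith)
      _ = _ := h7
      _ ≤ K * (m * (N - nrm x) * (nsq (x - z) + 1) ^ (-((d : ℝ) / 2))) := by
          apply mul_le_mul_of_nonneg_right hK7
          apply mul_nonneg _ (Qnn x z)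
          apply mul_nonneg (by linarith) (by linarith)
      _ = K * m * (N - nrm x) * (nsq (x - z) + 1) ^ (-((d : ℝ) / 2)) := by ring
  have hR0 : nrm (0 : Site d) ≤ R := by rw [nrm_zero]; linarith
  have huz : u 0 ≤ K * m / N ^ (d - 1) := by
    obtain ⟨d1, d2, d3, d4, d5⟩ := hD 0 hR0
    obtain ⟨g1, g2, g3, g4⟩ := hG 0 (by linarith)
    have hE : Ez N z 0 = N ^ 2 := by
      unfold Ez
      rw [nsq_zero]
      have h5 : nsq ((0 : Site d) - z) = nsq z := by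
        unfold nsq; simp
      rw [h5]
      field_simp
      ring
    have hNz : N - nrm z = 2 * m := by rw [hN]; ring
    rw [hE, hNz, nrm_zero, sub_zero] at g3
    refine (hB 0 hR0).2.trans ?_
    rw [hE]
    have h6 : (nsq ((0 : Site d) - z) + 1) ^ (-bt d) ≤ 1 / (N / 2) ^ (d - 2) := by
      apply P_le d hd _ _ (by linarith)
      have h5 : nsq ((0 : Site d) - z) = nsq z := by
        unfold nsq; simp
      rw [h5, nsq_nrm]
      exact pow_le_pow_left₀ (by linarith) (by linarith) 2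
    have h7 : (N ^ 2 - nsq ((0 : Site d) - z)) / N ^ 2 ≤ 2 * C8 * m / N := by
      rw [div_le_div_iff₀ (by positivity) hN0]
      calc (N ^ 2 - nsq ((0 : Site d) - z)) * N ≤ (C8 * (2 * m) * N) * N :=
            mul_le_mul_of_nonneg_right g3 hN0.le
        _ = _ := by ring
    have h8 : (nsq ((0 : Site d) - z) + 1) ^ (-bt d) *
        ((N ^ 2 - nsq ((0 : Site d) - z)) / N ^ 2) ≤
        1 / (N / 2) ^ (d - 2) * (2 * C8 * m / N) := by
      apply mul_le_mul h6 h7 _ (by positivity)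
      rw [hE] at d4
      exact d4
    calc C2 * ((nsq ((0 : Site d) - z) + 1) ^ (-bt d) *
        ((N ^ 2 - nsq ((0 : Site d) - z)) / N ^ 2)) ≤
          C2 * (1 / (N / 2) ^ (d - 2) * (2 * C8 * m / N)) :=
          mul_le_mul_of_nonneg_left h8 (by linarith)
      _ = (2 ^ (d - 2) * 2 * C2 * C8) * m / N ^ (d - 1) := by
          have h9 : N ^ (d - 1) = N ^ (d - 2) * N := by
            rw [← pow_succ]; congr 1; omega
          rw [h9, div_pow]
          field_simp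
      _ ≤ K * m / N ^ (d - 1) := by
          apply div_le_div_of_nonneg_right _ (by positivity)
          apply mul_le_mul_of_nonneg_right _ (by linarith)
          have h10 : (2 : ℝ) ^ (d - 2) * 2 ≤ 2 ^ d := by
            rw [← pow_succ]
            exact pow_le_pow_right₀ (by norm_num) (by omega)
          calc (2 : ℝ) ^ (d - 2) * 2 * C2 * C8 ≤ 2 ^ d * C2 * C8 := by gcongr
            _ ≤ K := hK8
  have hsup : ∀ x, nrm x ≤ R →
      u x - PP u x ≤ K * (nsq (x - z) + 1) ^ (-((d : ℝ) / 2) - 1) := by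
    intro x hx
    have h5 := (hSUH N z (hgeo C1 hK1) x (by linarith)).2
    rw [← hu] at h5
    exact h5.trans (mul_le_mul_of_nonneg_right hK1 (Tnn x z))
  have hmvi : ∀ ρ, K ≤ ρ → ρ + 1 ≤ R → ∃ psi : Site d → ℝ, (∀ x, 0 ≤ psi x) ∧
      (∀ x, nrm x ≤ ρ → ρ / 2 ≤ nrm x → psi x ≤ K * (ρ + 1 - nrm x) ^ 2) ∧
      (∀ x, nrm x ≤ ρ → psi x ≤ K * ρ ^ d * (nsq x + 1) ^ (-bt d)) ∧
      |∑ x ∈ bF d ρ, u x - ρ ^ d * ∑ x ∈ bF d ρ, mm d a x * u x +
          ∑ x ∈ bF d ρ, psi x * (u x - PP u x)| ≤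
            K * ∑ x ∈ bF d (ρ + 1) \ bF d (ρ - 1), u x := by
    intro ρ hρ hρR
    obtain ⟨psi, q1, q2, q3, q4, q5⟩ := hMVI ρ (hK4.trans hρ)
    have hρ0 : 0 ≤ ρ := by linarith
    refine ⟨psi, q1, ?_, ?_, ?_⟩
    · intro x hx1 hx2
      exact (q3 x hx1 hx2).trans (mul_le_mul_of_nonneg_right hK4 (by positivity))
    · intro x hx1
      refine (q4 x hx1).trans ?_
      have := Pnn x 0
      rw [sub_zero] at this
      exact mul_le_mul_of_nonneg_right (mul_le_mul_of_nonneg_right hK4 (by positivity)) this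
    · refine (q5 u (fun x hx => hu0 x (by linarith))).trans ?_
      apply mul_le_mul_of_nonneg_right hK4
      apply Finset.sum_nonneg
      intro x hx
      rw [Finset.mem_sdiff, mem_bF] at hx
      exact hu0 x (by linarith [hx.1])
  have hmvo : ∀ ρ, K ≤ ρ → ρ + 1 ≤ R →
      |ρ ^ d * ∑ x ∈ bF d ρ, mm d a x * u x - om d * ρ ^ d * u 0| ≤
        K * (ρ ^ d * (K * m / N ^ (d + 1)) * (1 + Real.log ρ) +
          ρ ^ d / ρ ^ 2 * u 0 + (∑ x ∈ bF d ρ, u x) / ρ ^ 2) := by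
    intro ρ hρ hρR
    have hρ1 : 1 ≤ ρ := by linarith
    have hlog : 0 ≤ Real.log ρ := Real.log_nonneg hρ1
    have hNz : N - nrm z = 2 * m := by rw [hN]; ring
    have h5 := hMVO ρ (C3 * (N - nrm z) / N ^ (d + 1)) u (hK5.trans hρ)
      (by rw [hNz]; positivity) (fun x hx => hu0 x (by linarith)) (by
        intro x hx
        have h6 := hSD2 N z (hgeo C3 (by linarith)) x (by linarith)
        rw [← hu] at h6
        exact h6)
    refine h5.trans ?_
    have hu00 : 0 ≤ u 0 := hu0 0 hR0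
    have hs0 : 0 ≤ ∑ x ∈ bF d ρ, u x := by
      apply Finset.sum_nonneg
      intro x hx
      rw [mem_bF] at hx
      exact hu0 x (by linarith)
    have h6 : C3 * (N - nrm z) / N ^ (d + 1) ≤ K * m / N ^ (d + 1) := by
      rw [hNz]
      apply div_le_div_of_nonneg_right _ (by positivity)
      have h9 : 2 * C3 * m ≤ K * m := mul_le_mul_of_nonneg_right hK3 (by linarith)
      linarith
    have h7 : 0 ≤ C3 * (N - nrm z) / N ^ (d + 1) := by rw [hNz]; positivity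
    have h8 : ρ ^ d * (C3 * (N - nrm z) / N ^ (d + 1)) * (1 + Real.log ρ) ≤
        ρ ^ d * (K * m / N ^ (d + 1)) * (1 + Real.log ρ) :=
      mul_le_mul_of_nonneg_right (mul_le_mul_of_nonneg_left h6 (by positivity)) (by linarith)
    apply mul_le_mul hK5 (by linarith) _ (by linarith)
    have : 0 ≤ ρ ^ d * (C3 * (N - nrm z) / N ^ (d + 1)) * (1 + Real.log ρ) := by
      apply mul_nonneg (mul_nonneg (by positivity) h7) (by linarith)
    positivity
  have key := core d hd K L hK hL hom.le R m ρ h z hm1 hmR hz hz2 hh hhm h3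
    (by linarith) hρR hRρ u (mm d a) hu0 hu1 (by rw [← hN]; exact hu2) (by rw [← hN]; exact huz)
    hsup hmvi (by rw [← hN]; exact hmvo)
  rw [← hW] at key
  refine key.trans ?_
  have hR1 : 1 ≤ R := by linarith
  have hlogR : 0 ≤ Real.log R := Real.log_nonneg hR1
  have hf : 0 ≤ m * (h + (1 + m / h) * (1 + Real.log R)) := by positivity
  have e1 : W * m * (h + (1 + m / h) * (1 + Real.log R)) ≤
      (2 * K + W) * m * (h + (1 + m / h) * (1 + Real.log R)) := by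
    have : 0 ≤ 2 * K * (m * (h + (1 + m / h) * (1 + Real.log R))) :=
      mul_nonneg (by linarith) hf
    linarith
  linarith

end Pool.Agent.H11.BD
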