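import Pool.Agent.H3.BI.Stm2

/-!
# Project BD, part OM: preliminary lemmas
-/

set_option autoImplicit false

open scoped ENNReal
open Finset

namespace Pool.Agent.H11.BD.OM
open Pool.Agent.H3.BI

/-- Euclidean vector of a site. -/
noncomputable def ev {d : ℕ} (x : Site d) : EuclideanSpace ℝ (Fin d) :=
  WithLp.toLp 2 fun i => (x i : ℝ)

theorem nrm_eq {d : ℕ} (x : Site d) : nrm x = ‖ev x‖ := by
  unfold nrm nsq ev
  rw [EuclideanSpace.norm_eq]
  simp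

theorem ev_sub {d : ℕ} (x y : Site d) : ev (x - y) = ev x - ev y := by
  ext i; simp [ev]

theorem nrm_tri1 {d : ℕ} (x z : Site d) : nrm z - nrm x ≤ nrm (x - z) := by
  rw [nrm_eq, nrm_eq, nrm_eq, ev_sub, norm_sub_rev]
  exact norm_sub_norm_le _ _

theorem nrm_tri2 {d : ℕ} (x z : Site d) : nrm (x - z) ≤ nrm x + nrm z := by
  rw [nrm_eq, nrm_eq, nrm_eq, ev_sub]
  exact norm_sub_le _ _

theorem nrm_zero {d : ℕ} : nrm (0 : Site d) = 0 := by
  simp [nrm, nsq]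

theorem nsq_zero {d : ℕ} : nsq (0 : Site d) = 0 := by
  simp [nsq]

/-- `(s + 1)^(-β) = (s+1) (s+1)^(-d/2)`. -/
theorem pow_PQ (d : ℕ) (s : ℝ) (hs : 0 ≤ s) :
    (s + 1) ^ (-bt d) = (s + 1) * (s + 1) ^ (-((d : ℝ) / 2)) := by
  have h : -bt d = 1 + (-((d : ℝ) / 2)) := by unfold bt; ring
  rw [h, Real.rpow_add (by linarith), Real.rpow_one]

theorem pow_QT (d : ℕ) (s : ℝ) (hs : 0 ≤ s) :
    (s + 1) ^ (-((d : ℝ) / 2)) = (s + 1) * (s + 1) ^ (-((d : ℝ) / 2) - 1) := by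
  have h : -((d : ℝ) / 2) = 1 + (-((d : ℝ) / 2) - 1) := by ring
  nth_rewrite 1 [h]
  rw [Real.rpow_add (by linarith), Real.rpow_one]

theorem P_le (d : ℕ) (hd : 3 ≤ d) (s t : ℝ) (ht : 0 < t) (h : t ^ 2 ≤ s) :
    (s + 1) ^ (-bt d) ≤ 1 / t ^ (d - 2) := by
  have hβ : 0 ≤ bt d := by
    unfold bt
    have : (3 : ℝ) ≤ d := by exact_mod_cast hd
    linarith
  have h1 : (s + 1) ^ (-bt d) ≤ (t ^ 2) ^ (-bt d) := by
    apply Real.rpow_le_rpow_of_nonpos (by positivity) (by linarith) (by linarith)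
  refine h1.trans (le_of_eq ?_)
  rw [← Real.rpow_natCast t 2, ← Real.rpow_mul ht.le, one_div, ← Real.rpow_natCast t (d - 2),
    ← Real.rpow_neg ht.le]
  congr 1
  rw [Nat.cast_sub (by omega)]
  unfold bt
  push_cast
  ring

theorem T_le (d : ℕ) (s t : ℝ) (ht : 0 < t) (h : t ^ 2 ≤ s) :
    (s + 1) ^ (-((d : ℝ) / 2) - 1) ≤ 1 / t ^ (d + 2) := by
  have h1 : (s + 1) ^ (-((d : ℝ) / 2) - 1) ≤ (t ^ 2) ^ (-((d : ℝ) / 2) - 1) := by
    apply Real.rpow_le_rpow_of_nonpos (by positivity) (by linarith)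
    have : (0 : ℝ) ≤ d := Nat.cast_nonneg d
    linarith
  refine h1.trans (le_of_eq ?_)
  rw [← Real.rpow_natCast t 2, ← Real.rpow_mul ht.le, one_div, ← Real.rpow_natCast t (d + 2),
    ← Real.rpow_neg ht.le]
  congr 1
  push_cast
  ring

theorem pow_diff (n : ℕ) (a b : ℝ) (hb : 0 ≤ b) (hab : b ≤ a) :
    a ^ (n + 1) - b ^ (n + 1) ≤ (n + 1) * (a - b) * a ^ n := by
  induction n with
  | zero => simp
  | succ n ih =>
    have h1 : a ^ (n + 1 + 1) - b ^ (n + 1 + 1) =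
        a * (a ^ (n + 1) - b ^ (n + 1)) + (a - b) * b ^ (n + 1) := by ring
    have ha : 0 ≤ a := hb.trans hab
    have h2 : a * (a ^ (n + 1) - b ^ (n + 1)) ≤ a * ((n + 1) * (a - b) * a ^ n) :=
      mul_le_mul_of_nonneg_left ih ha
    have h3 : (a - b) * b ^ (n + 1) ≤ (a - b) * a ^ (n + 1) :=
      mul_le_mul_of_nonneg_left (pow_le_pow_left₀ hb hab _) (by linarith)
    rw [h1]
    push_cast
    calc a * (a ^ (n + 1) - b ^ (n + 1)) + (a - b) * b ^ (n + 1)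
        ≤ a * ((n + 1) * (a - b) * a ^ n) + (a - b) * a ^ (n + 1) := add_le_add h2 h3
      _ = (n + 1 + 1) * (a - b) * a ^ (n + 1) := by ring

theorem log3_le : Real.log 3 ≤ 2 := by
  have h := Real.log_le_sub_one_of_pos (show (0 : ℝ) < 3 by norm_num)
  linarith

theorem log3R (R : ℝ) (hR : 1 ≤ R) : 1 + Real.log (3 * R) ≤ 3 * (1 + Real.log R) := by
  rw [Real.log_mul (by norm_num) (by linarith)]
  have := log3_le
  have := Real.log_nonneg hR
  linarith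

/-- Layers. -/
noncomputable def lay (d : ℕ) (ρ : ℝ) (j : ℕ) : Finset (Site d) :=
  bF d (ρ - 2 * j + 1) \ bF d (ρ - 2 * j - 1)

theorem mem_lay {d : ℕ} (ρ : ℝ) (j : ℕ) (x : Site d) :
    x ∈ lay d ρ j ↔ nrm x ≤ ρ - 2 * j + 1 ∧ ρ - 2 * j - 1 < nrm x := by
  unfold lay
  rw [Finset.mem_sdiff, mem_bF, mem_bF, not_le]

/-- A layer with small sum. -/
theorem exists_layer (d : ℕ) (ρ h : ℝ) (hh : 1 ≤ h) (u : Site d → ℝ) (M : ℝ)
    (hM : ∑ x ∈ (bF d (ρ + 1)).filter (fun x => ρ - h - 1 < nrm x), u x ≤ M)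
    (hu : ∀ x, nrm x ≤ ρ + 1 → 0 ≤ u x) :
    ∃ j : ℕ, 2 * (j : ℝ) ≤ h ∧ ∑ x ∈ lay d ρ j, u x ≤ 2 * M / h := by
  classical
  set J : ℕ := ⌊h / 2⌋₊ + 1 with hJ
  have hJ1 : h / 2 < J := by
    rw [hJ]; push_cast; exact Nat.lt_floor_add_one _
  have hJ2 : ∀ j ∈ Finset.range J, 2 * (j : ℝ) ≤ h := by
    intro j hj
    rw [Finset.mem_range, hJ] at hj
    have h1 : j ≤ ⌊h / 2⌋₊ := by omega
    have h2 : (j : ℝ) ≤ h / 2 := (Nat.cast_le.2 h1).trans (Nat.floor_le (by linarith))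
    linarith
  have hdis : (↑(Finset.range J) : Set ℕ).PairwiseDisjoint (lay d ρ) := by
    intro i _ j _ hij
    rw [Function.onFun, Finset.disjoint_left]
    intro x hxi hxj
    rw [mem_lay] at hxi hxj
    rcases lt_or_gt_of_ne hij with h1 | h1
    · have h2 : (i : ℝ) + 1 ≤ j := by exact_mod_cast h1
      linarith [hxi.1, hxi.2, hxj.1, hxj.2]
    · have h2 : (j : ℝ) + 1 ≤ i := by exact_mod_cast h1
      linarith [hxi.1, hxi.2, hxj.1, hxj.2]
  have hsum : ∑ j ∈ Finset.range J, ∑ x ∈ lay d ρ j, u x ≤ M := by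
    rw [← Finset.sum_biUnion hdis]
    refine le_trans (Finset.sum_le_sum_of_subset_of_nonneg ?_ ?_) hM
    · intro x hx
      rw [Finset.mem_biUnion] at hx
      obtain ⟨j, hj, hx⟩ := hx
      have h1 := hJ2 j hj
      have h0 : (0 : ℝ) ≤ j := Nat.cast_nonneg j
      rw [mem_lay] at hx
      rw [Finset.mem_filter, mem_bF]
      constructor
      · linarith [hx.1]
      · linarith [hx.2]
    · intro x hx _
      rw [Finset.mem_filter, mem_bF] at hx
      exact hu x hx.1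
  have hM0 : 0 ≤ M := by
    refine le_trans (Finset.sum_nonneg ?_) hM
    intro x hx
    rw [Finset.mem_filter, mem_bF] at hx
    exact hu x hx.1
  have hJ0 : (0 : ℝ) < J := by linarith
  obtain ⟨j, hj, hle⟩ := Finset.exists_le_of_sum_le (s := Finset.range J)
    (f := fun j => ∑ x ∈ lay d ρ j, u x) (g := fun _ => M / J)
    (Finset.nonempty_range_iff.2 (by omega)) (by
      simp only [Finset.sum_const, Finset.card_range, nsmul_eq_mul]
      rw [mul_div_cancel₀ _ hJ0.ne']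
      exact hsum)
  refine ⟨j, hJ2 j hj, hle.trans ?_⟩
  rw [div_le_div_iff₀ hJ0 (by linarith)]
  nlinarith

end Pool.Agent.H11.BD.OM
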