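import Pool.Agent.H11.BD.OM1

/-!
# Project BD, part OM: sums
-/

set_option autoImplicit false

open scoped ENNReal
open Finset

namespace Pool.Agent.H11.BD.OM
open Pool.Agent.H3.BI

/-- The two lattice sums (with constant `L`). -/
structure LAT (d : ℕ) (L : ℝ) : Prop where
  one : 1 ≤ L
  card : ∀ (ρ : ℝ) (z : Site d) (Y : Finset (Site d)), 1 ≤ ρ → (∀ y ∈ Y, nrm (y - z) ≤ ρ) →
      (Y.card : ℝ) ≤ L * ρ ^ d
  sP : ∀ (ρ : ℝ) (z : Site d) (Y : Finset (Site d)), 1 ≤ ρ → (∀ y ∈ Y, nrm (y - z) ≤ ρ) →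
      ∑ y ∈ Y, (nsq (y - z) + 1) ^ (-bt d) ≤ L * ρ ^ 2
  sQ : ∀ (ρ : ℝ) (z : Site d) (Y : Finset (Site d)), 1 ≤ ρ → (∀ y ∈ Y, nrm (y - z) ≤ ρ) →
      ∑ y ∈ Y, (nsq (y - z) + 1) ^ (-((d : ℝ) / 2)) ≤ L * (1 + Real.log ρ)

theorem LAT_of (h : S_LAT) (d : ℕ) (hd : 3 ≤ d) : ∃ L : ℝ, LAT d L := by
  obtain ⟨C, hC, H⟩ := h d hd
  exact ⟨C, hC, fun ρ z Y h1 h2 => ((H ρ z Y h1).1 h2).1, fun ρ z Y h1 h2 => ((H ρ z Y h1).1 h2).2.1,
    fun ρ z Y h1 h2 => ((H ρ z Y h1).1 h2).2.2⟩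

theorem nsq_nrm {d : ℕ} (x : Site d) : nsq x = nrm x ^ 2 := (nrm_sq x).symm

theorem Qnn {d : ℕ} (x z : Site d) : 0 ≤ (nsq (x - z) + 1) ^ (-((d : ℝ) / 2)) :=
  Real.rpow_nonneg (by linarith [nsq_nonneg (x - z)]) _

theorem Pnn {d : ℕ} (x z : Site d) : 0 ≤ (nsq (x - z) + 1) ^ (-bt d) :=
  Real.rpow_nonneg (by linarith [nsq_nonneg (x - z)]) _

theorem Tnn {d : ℕ} (x z : Site d) : 0 ≤ (nsq (x - z) + 1) ^ (-((d : ℝ) / 2) - 1) :=
  Real.rpow_nonneg (by linarith [nsq_nonneg (x - z)]) _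

/-- The sum with `psi`. -/
theorem psi_sum (d : ℕ) (K L : ℝ) (hK : 1 ≤ K) (hL : LAT d L) (R ρ : ℝ) (z : Site d)
    (hρ : 2 ≤ ρ) (hρR : ρ + 1 ≤ R) (hz : R < nrm z) (hz2 : nrm z ≤ R + 1)
    (u psi : Site d → ℝ) (hpsi : ∀ x, 0 ≤ psi x)
    (hp1 : ∀ x, nrm x ≤ ρ → ρ / 2 ≤ nrm x → psi x ≤ K * (ρ + 1 - nrm x) ^ 2)
    (hp2 : ∀ x, nrm x ≤ ρ → psi x ≤ K * ρ ^ d * (nsq x + 1) ^ (-bt d))
    (hu : ∀ x, nrm x ≤ R → u x - PP u x ≤ K * (nsq (x - z) + 1) ^ (-((d : ℝ) / 2) - 1)) :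
    ∑ x ∈ bF d ρ, psi x * (u x - PP u x) ≤ (3 + 2 ^ (d + 2)) * K ^ 2 * L * (1 + Real.log R) := by
  have hL1 := hL.one
  have hlog : 0 ≤ Real.log R := Real.log_nonneg (by linarith)
  have hpt : ∀ x ∈ bF d ρ, psi x * (u x - PP u x) ≤
      K ^ 2 * (nsq (x - z) + 1) ^ (-((d : ℝ) / 2)) +
        K ^ 2 * 2 ^ (d + 2) / ρ ^ 2 * (nsq (x - 0) + 1) ^ (-bt d) := by
    intro x hx
    rw [mem_bF] at hx
    have h1 := hu x (by linarith)
    have h2 : psi x * (u x - PP u x) ≤ psi x * (K * (nsq (x - z) + 1) ^ (-((d : ℝ) / 2) - 1)) :=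
      mul_le_mul_of_nonneg_left h1 (hpsi x)
    have htri := nrm_tri1 x z
    have hnx := nrm_nonneg x
    refine h2.trans ?_
    rcases le_or_gt (ρ / 2) (nrm x) with h3 | h3
    · have h4 := hp1 x hx h3
      have h5 : (ρ + 1 - nrm x) ^ 2 ≤ nsq (x - z) + 1 := by
        rw [nsq_nrm]
        have : (ρ + 1 - nrm x) ^ 2 ≤ nrm (x - z) ^ 2 :=
          pow_le_pow_left₀ (by linarith) (by linarith) 2
        linarith
      have h6 : psi x ≤ K * (nsq (x - z) + 1) :=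
        h4.trans (mul_le_mul_of_nonneg_left h5 (by linarith))
      have h7 : psi x * (K * (nsq (x - z) + 1) ^ (-((d : ℝ) / 2) - 1)) ≤
          K * (nsq (x - z) + 1) * (K * (nsq (x - z) + 1) ^ (-((d : ℝ) / 2) - 1)) :=
        mul_le_mul_of_nonneg_right h6 (mul_nonneg (by linarith) (Tnn x z))
      have h8 : K * (nsq (x - z) + 1) * (K * (nsq (x - z) + 1) ^ (-((d : ℝ) / 2) - 1)) =
          K ^ 2 * (nsq (x - z) + 1) ^ (-((d : ℝ) / 2)) := by
        rw [pow_QT d (nsq (x - z)) (nsq_nonneg _)]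
        ring
      have h9 : 0 ≤ K ^ 2 * 2 ^ (d + 2) / ρ ^ 2 * (nsq (x - 0) + 1) ^ (-bt d) :=
        mul_nonneg (by positivity) (Pnn x 0)
      linarith
    · have h4 := hp2 x hx
      have h5 : (nsq (x - z) + 1) ^ (-((d : ℝ) / 2) - 1) ≤ 1 / (ρ / 2) ^ (d + 2) := by
        apply T_le d _ _ (by linarith)
        rw [nsq_nrm]
        exact pow_le_pow_left₀ (by linarith) (by linarith) 2
      have h6 : psi x * (K * (nsq (x - z) + 1) ^ (-((d : ℝ) / 2) - 1)) ≤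
          (K * ρ ^ d * (nsq x + 1) ^ (-bt d)) * (K * (1 / (ρ / 2) ^ (d + 2))) := by
        apply mul_le_mul h4 (mul_le_mul_of_nonneg_left h5 (by linarith))
          (mul_nonneg (by linarith) (Tnn x z))
        have := Pnn x 0
        rw [sub_zero] at this
        positivity
      have h7 : (K * ρ ^ d * (nsq x + 1) ^ (-bt d)) * (K * (1 / (ρ / 2) ^ (d + 2))) =
          K ^ 2 * 2 ^ (d + 2) / ρ ^ 2 * (nsq (x - 0) + 1) ^ (-bt d) := by
        rw [sub_zero, div_pow]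
        have hρ0 : ρ ≠ 0 := by linarith
        field_simp
        ring
      have h8 : 0 ≤ K ^ 2 * (nsq (x - z) + 1) ^ (-((d : ℝ) / 2)) :=
        mul_nonneg (by positivity) (Qnn x z)
      linarith
  have hs := Finset.sum_le_sum hpt
  rw [Finset.sum_add_distrib, ← Finset.mul_sum, ← Finset.mul_sum] at hs
  have hA := hL.sQ (3 * R) z (bF d ρ) (by linarith) (by
    intro y hy
    rw [mem_bF] at hy
    have := nrm_tri2 y z
    linarith)
  have hB := hL.sP ρ 0 (bF d ρ) (by linarith) (by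
    intro y hy
    rw [mem_bF] at hy
    simpa using hy)
  have h3 := log3R R (by linarith)
  have hA2 : K ^ 2 * ∑ x ∈ bF d ρ, (nsq (x - z) + 1) ^ (-((d : ℝ) / 2)) ≤
      K ^ 2 * (L * (3 * (1 + Real.log R))) := by
    apply mul_le_mul_of_nonneg_left _ (by positivity)
    exact hA.trans (mul_le_mul_of_nonneg_left h3 (by linarith))
  have hB2 : K ^ 2 * 2 ^ (d + 2) / ρ ^ 2 * ∑ x ∈ bF d ρ, (nsq (x - 0) + 1) ^ (-bt d) ≤
      K ^ 2 * 2 ^ (d + 2) / ρ ^ 2 * (L * ρ ^ 2) :=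
    mul_le_mul_of_nonneg_left hB (by positivity)
  have hB3 : K ^ 2 * 2 ^ (d + 2) / ρ ^ 2 * (L * ρ ^ 2) = K ^ 2 * 2 ^ (d + 2) * L := by
    have hρ0 : ρ ≠ 0 := by linarith
    field_simp
  have hB4 : K ^ 2 * 2 ^ (d + 2) * L ≤ K ^ 2 * 2 ^ (d + 2) * L * (1 + Real.log R) := by
    have : 0 ≤ K ^ 2 * 2 ^ (d + 2) * L := by positivity
    nlinarith
  calc _ ≤ _ := hs
    _ ≤ K ^ 2 * (L * (3 * (1 + Real.log R))) + K ^ 2 * 2 ^ (d + 2) * L * (1 + Real.log R) := by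
        linarith
    _ = _ := by ring

/-- The sum of `u`. -/
theorem u_sum (d : ℕ) (hd : 3 ≤ d) (K L : ℝ) (hK : 1 ≤ K) (hL : LAT d L) (R ρ : ℝ) (z : Site d)
    (hρ : 2 ≤ ρ) (hρR : ρ + 1 ≤ R) (hz : R < nrm z) (hz2 : nrm z ≤ R + 1)
    (u : Site d → ℝ)
    (hu : ∀ x, nrm x ≤ R → u x ≤ K * (nsq (x - z) + 1) ^ (-bt d)) :
    ∑ x ∈ bF d ρ, u x ≤ 36 * K * L * ρ ^ 2 := by
  have hL1 := hL.one
  have h1 : ∑ x ∈ bF d ρ, u x ≤ ∑ x ∈ bF d ρ, K * (nsq (x - z) + 1) ^ (-bt d) := by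
    apply Finset.sum_le_sum
    intro x hx
    rw [mem_bF] at hx
    exact hu x (by linarith)
  rw [← Finset.mul_sum] at h1
  refine h1.trans ?_
  rcases le_or_gt (nrm z / 2) ρ with h2 | h2
  · have hA := hL.sP (3 * R) z (bF d ρ) (by linarith) (by
      intro y hy
      rw [mem_bF] at hy
      have := nrm_tri2 y z
      linarith)
    have h3 : (3 * R) ^ 2 ≤ 36 * ρ ^ 2 := by
      have : (3 * R) ^ 2 ≤ (6 * ρ) ^ 2 := pow_le_pow_left₀ (by linarith) (by linarith) 2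
      linarith
    calc K * ∑ x ∈ bF d ρ, (nsq (x - z) + 1) ^ (-bt d) ≤ K * (L * (3 * R) ^ 2) :=
          mul_le_mul_of_nonneg_left hA (by linarith)
      _ ≤ K * (L * (36 * ρ ^ 2)) :=
          mul_le_mul_of_nonneg_left (mul_le_mul_of_nonneg_left h3 (by linarith)) (by linarith)
      _ = _ := by ring
  · have hpt : ∀ x ∈ bF d ρ, (nsq (x - z) + 1) ^ (-bt d) ≤ 1 / ρ ^ (d - 2) := by
      intro x hx
      rw [mem_bF] at hx
      apply P_le d hd _ _ (by linarith)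
      rw [nsq_nrm]
      have := nrm_tri1 x z
      exact pow_le_pow_left₀ (by linarith) (by linarith) 2
    have hs := Finset.sum_le_sum hpt
    rw [Finset.sum_const, nsmul_eq_mul] at hs
    have hc := hL.card ρ 0 (bF d ρ) (by linarith) (by
      intro y hy
      rw [mem_bF] at hy
      simpa using hy)
    have h3 : ((bF d ρ).card : ℝ) * (1 / ρ ^ (d - 2)) ≤ L * ρ ^ d * (1 / ρ ^ (d - 2)) :=
      mul_le_mul_of_nonneg_right hc (by positivity)
    have h4 : L * ρ ^ d * (1 / ρ ^ (d - 2)) = L * ρ ^ 2 := by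
      have h5 : ρ ^ d = ρ ^ (d - 2) * ρ ^ 2 := by
        rw [← pow_add]; congr 1; omega
      rw [h5]
      have hρ0 : ρ ≠ 0 := by linarith
      field_simp
    calc K * ∑ x ∈ bF d ρ, (nsq (x - z) + 1) ^ (-bt d) ≤ K * (L * ρ ^ 2) :=
          mul_le_mul_of_nonneg_left (by linarith) (by linarith)
      _ ≤ 36 * K * L * ρ ^ 2 := by
          have : 0 ≤ K * L * ρ ^ 2 := by positivity
          nlinarith

/-- The sum over the layers. -/
theorem lay_sum (d : ℕ) (K L : ℝ) (hK : 1 ≤ K) (hL : LAT d L) (R m ρ h : ℝ) (z : Site d)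
    (hm : 1 ≤ m) (hh : 1 ≤ h) (hhm : h ≤ m) (hρ : 2 ≤ ρ) (hρR : ρ + m ≤ R) (hRρ : R ≤ ρ + 8 * m)
    (hz : R < nrm z) (hz2 : nrm z ≤ R + 1) (u : Site d → ℝ)
    (hu : ∀ x, nrm x ≤ R → u x ≤ K * m * (nrm z + 2 * m - nrm x) *
      (nsq (x - z) + 1) ^ (-((d : ℝ) / 2))) :
    ∑ x ∈ (bF d (ρ + 1)).filter (fun x => ρ - h - 1 < nrm x), u x ≤
      39 * K * L * m ^ 2 * (1 + Real.log R) := by
  have hL1 := hL.one
  have hpt : ∀ x ∈ (bF d (ρ + 1)).filter (fun x => ρ - h - 1 < nrm x), u x ≤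
      13 * K * m ^ 2 * (nsq (x - z) + 1) ^ (-((d : ℝ) / 2)) := by
    intro x hx
    rw [Finset.mem_filter, mem_bF] at hx
    refine (hu x (by linarith [hx.1])).trans ?_
    apply mul_le_mul_of_nonneg_right _ (Qnn x z)
    have h1 : nrm z + 2 * m - nrm x ≤ 13 * m := by linarith [hx.2]
    calc K * m * (nrm z + 2 * m - nrm x) ≤ K * m * (13 * m) :=
          mul_le_mul_of_nonneg_left h1 (by positivity)
      _ = _ := by ring
  have hs := Finset.sum_le_sum hpt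
  rw [← Finset.mul_sum] at hs
  have hA := hL.sQ (3 * R) z ((bF d (ρ + 1)).filter (fun x => ρ - h - 1 < nrm x)) (by linarith) (by
    intro y hy
    rw [Finset.mem_filter, mem_bF] at hy
    have := nrm_tri2 y z
    linarith [hy.1])
  have h3 := log3R R (by linarith)
  calc _ ≤ _ := hs
    _ ≤ 13 * K * m ^ 2 * (L * (3 * (1 + Real.log R))) := by
        apply mul_le_mul_of_nonneg_left _ (by positivity)
        exact hA.trans (mul_le_mul_of_nonneg_left h3 (by linarith))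
    _ = _ := by ring

/-- The main estimate, with the properties of `u` as hypotheses. -/
theorem core (d : ℕ) (hd : 3 ≤ d) (K L : ℝ) (hK : 1 ≤ K) (hL : LAT d L) (hom : 0 ≤ om d)
    (R m ρ h : ℝ) (z : Site d) (hm : 1 ≤ m) (hmR : 4 * m ≤ R)
    (hz : R < nrm z) (hz2 : nrm z ≤ R + 1) (hh : 1 ≤ h) (hhm : h ≤ m) (h3 : 3 * h ≤ ρ)
    (hρK : 2 * K ≤ ρ) (hρR : ρ + m ≤ R) (hRρ : R ≤ ρ + 8 * m)
    (u ms : Site d → ℝ)
    (hu0 : ∀ x, nrm x ≤ R → 0 ≤ u x)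
    (hu1 : ∀ x, nrm x ≤ R → u x ≤ K * (nsq (x - z) + 1) ^ (-bt d))
    (hu2 : ∀ x, nrm x ≤ R → u x ≤ K * m * (nrm z + 2 * m - nrm x) *
      (nsq (x - z) + 1) ^ (-((d : ℝ) / 2)))
    (huz : u 0 ≤ K * m / (nrm z + 2 * m) ^ (d - 1))
    (hsup : ∀ x, nrm x ≤ R → u x - PP u x ≤ K * (nsq (x - z) + 1) ^ (-((d : ℝ) / 2) - 1))
    (hmvi : ∀ ρ, K ≤ ρ → ρ + 1 ≤ R → ∃ psi : Site d → ℝ, (∀ x, 0 ≤ psi x) ∧
      (∀ x, nrm x ≤ ρ → ρ / 2 ≤ nrm x → psi x ≤ K * (ρ + 1 - nrm x) ^ 2) ∧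
      (∀ x, nrm x ≤ ρ → psi x ≤ K * ρ ^ d * (nsq x + 1) ^ (-bt d)) ∧
      |∑ x ∈ bF d ρ, u x - ρ ^ d * ∑ x ∈ bF d ρ, ms x * u x +
          ∑ x ∈ bF d ρ, psi x * (u x - PP u x)| ≤
            K * ∑ x ∈ bF d (ρ + 1) \ bF d (ρ - 1), u x)
    (hmvo : ∀ ρ, K ≤ ρ → ρ + 1 ≤ R →
      |ρ ^ d * ∑ x ∈ bF d ρ, ms x * u x - om d * ρ ^ d * u 0| ≤
        K * (ρ ^ d * (K * m / (nrm z + 2 * m) ^ (d + 1)) * (1 + Real.log ρ) +
          ρ ^ d / ρ ^ 2 * u 0 + (∑ x ∈ bF d ρ, u x) / ρ ^ 2)) :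
    om d * ρ ^ d * u 0 ≤ ∑ x ∈ bF d ρ, u x +
      ((om d * d * K) + (3 + 2 ^ (d + 2)) * K ^ 2 * L + 78 * K ^ 2 * L + 2 * K ^ 2 +
        36 * K ^ 2 * L) * m * (h + (1 + m / h) * (1 + Real.log R)) := by
  classical
  have hL1 := hL.one
  have hN0 : 0 < nrm z + 2 * m := by linarith
  have hR1 : 1 ≤ R := by linarith
  have hlog : 0 ≤ Real.log R := Real.log_nonneg hR1
  -- choice of the layer
  obtain ⟨j, hj1, hj2⟩ := exists_layer d ρ h hh u (39 * K * L * m ^ 2 * (1 + Real.log R))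
    (lay_sum d K L hK hL R m ρ h z hm hh hhm (by linarith) hρR hRρ hz hz2 u hu2)
    (fun x hx => hu0 x (by linarith))
  have hj0 : (0 : ℝ) ≤ j := Nat.cast_nonneg j
  set r : ℝ := ρ - 2 * j with hr
  have hrρ : r ≤ ρ := by linarith
  have hrh : ρ - h ≤ r := by linarith
  have hr1 : K ≤ r := by
    have : 2 / 3 * ρ ≤ r := by linarith
    linarith
  have hr2 : 2 ≤ r ∨ r < 2 := le_or_gt _ _
  have hr3 : r + 1 ≤ R := by linarith
  have hr4 : 2 / 3 * ρ ≤ r := by linarith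
  have hr5 : 2 ≤ r := by
    -- `ρ ≥ 3 h ≥ 3`, hence `r ≥ 2`
    linarith
  obtain ⟨psi, hp0, hp1, hp2, hp3⟩ := hmvi r hr1 hr3
  have hmo := hmvo r hr1 hr3
  have hps := psi_sum d K L hK hL R r z hr5 hr3 hz hz2 u psi hp0 hp1 hp2 hsup
  have hus := u_sum d hd K L hK hL R r z hr5 hr3 hz hz2 u hu1
  have hu00 : 0 ≤ u 0 := hu0 0 (by rw [nrm_zero]; linarith)
  -- monotonicity
  have hmono : ∑ x ∈ bF d r, u x ≤ ∑ x ∈ bF d ρ, u x := by
    apply Finset.sum_le_sum_of_subset_of_nonneg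
    · intro x hx
      rw [mem_bF] at hx ⊢
      linarith
    · intro x hx _
      rw [mem_bF] at hx
      exact hu0 x (by linarith)
  -- the layer
  have hlay : ∑ x ∈ bF d (r + 1) \ bF d (r - 1), u x ≤
      2 * (39 * K * L * m ^ 2 * (1 + Real.log R)) / h := hj2
  have hrr : Real.log r ≤ Real.log R := Real.log_le_log (by linarith) (by linarith)
  have hr0 : 0 < r := by linarith
  have hrN : r ≤ nrm z + 2 * m := by linarith
  -- terms of MVO
  have t1 : r ^ d * (K * m / (nrm z + 2 * m) ^ (d + 1)) * (1 + Real.log r) ≤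
      K * (1 + Real.log R) := by
    have h1 : r ^ d * (K * m / (nrm z + 2 * m) ^ (d + 1)) ≤ K := by
      rw [mul_div_assoc', div_le_iff₀ (by positivity)]
      have h2 : r ^ d ≤ (nrm z + 2 * m) ^ d := pow_le_pow_left₀ hr0.le hrN d
      calc r ^ d * (K * m) ≤ (nrm z + 2 * m) ^ d * (K * (nrm z + 2 * m)) := by
            apply mul_le_mul h2 (mul_le_mul_of_nonneg_left (by linarith) (by linarith))
              (by positivity) (by positivity)
        _ = K * (nrm z + 2 * m) ^ (d + 1) := by ring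
    have h2 : 0 ≤ Real.log r := Real.log_nonneg (by linarith)
    calc _ ≤ K * (1 + Real.log r) := mul_le_mul_of_nonneg_right h1 (by linarith)
      _ ≤ _ := mul_le_mul_of_nonneg_left (by linarith) (by linarith)
  have t2 : r ^ d / r ^ 2 * u 0 ≤ K := by
    have h1 : r ^ d / r ^ 2 = r ^ (d - 2) := by
      have h5 : r ^ d = r ^ (d - 2) * r ^ 2 := by
        rw [← pow_add]; congr 1; omega
      rw [h5, mul_div_assoc, div_self (by positivity), mul_one]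
    rw [h1]
    have h2 : r ^ (d - 2) * u 0 ≤ (nrm z + 2 * m) ^ (d - 2) *
        (K * m / (nrm z + 2 * m) ^ (d - 1)) :=
      mul_le_mul (pow_le_pow_left₀ hr0.le hrN _) huz hu00 (by positivity)
    refine h2.trans ?_
    have h5 : (nrm z + 2 * m) ^ (d - 1) = (nrm z + 2 * m) ^ (d - 2) * (nrm z + 2 * m) := by
      rw [← pow_succ]; congr 1; omega
    rw [mul_div_assoc', div_le_iff₀ (by positivity), h5]
    calc (nrm z + 2 * m) ^ (d - 2) * (K * m) ≤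
          (nrm z + 2 * m) ^ (d - 2) * (K * (nrm z + 2 * m)) := by
          apply mul_le_mul_of_nonneg_left _ (by positivity)
          exact mul_le_mul_of_nonneg_left (by linarith) (by linarith)
      _ = _ := by ring
  have t3 : (∑ x ∈ bF d r, u x) / r ^ 2 ≤ 36 * K * L := by
    rw [div_le_iff₀ (by positivity)]
    exact hus
  have t4 : om d * ρ ^ d * u 0 - om d * r ^ d * u 0 ≤ om d * d * K * (m * h) := by
    obtain ⟨n, rfl⟩ : ∃ n, d = n + 1 := ⟨d - 1, by omega⟩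
    have h1 := pow_diff n ρ r hr0.le hrρ
    have h2 : (ρ ^ (n + 1) - r ^ (n + 1)) * u 0 ≤
        ((n + 1) * (ρ - r) * ρ ^ n) * (K * m / (nrm z + 2 * m) ^ (n + 1 - 1)) :=
      mul_le_mul h1 huz hu00 (by
        have : 0 ≤ ρ - r := by linarith
        have : 0 ≤ ρ := by linarith
        positivity)
    rw [Nat.add_sub_cancel] at h2
    have h3 : ((n + 1) * (ρ - r) * ρ ^ n) * (K * m / (nrm z + 2 * m) ^ n) ≤
        (n + 1) * (h * (K * m)) := by
      rw [mul_div_assoc', div_le_iff₀ (by positivity)]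
      have h4 : ρ ^ n ≤ (nrm z + 2 * m) ^ n := pow_le_pow_left₀ (by linarith) (by linarith) n
      have h5 : (ρ - r) * ρ ^ n ≤ h * (nrm z + 2 * m) ^ n :=
        mul_le_mul (by linarith) h4 (pow_nonneg (by linarith) _) (by linarith)
      calc ((n : ℝ) + 1) * (ρ - r) * ρ ^ n * (K * m) = ((n + 1) * (K * m)) * ((ρ - r) * ρ ^ n) := by
            ring
        _ ≤ ((n + 1) * (K * m)) * (h * (nrm z + 2 * m) ^ n) :=
            mul_le_mul_of_nonneg_left h5 (by positivity)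
        _ = _ := by ring
    calc om (n + 1) * ρ ^ (n + 1) * u 0 - om (n + 1) * r ^ (n + 1) * u 0
        = om (n + 1) * ((ρ ^ (n + 1) - r ^ (n + 1)) * u 0) := by ring
      _ ≤ om (n + 1) * ((n + 1) * (h * (K * m))) :=
          mul_le_mul_of_nonneg_left (h2.trans h3) hom
      _ = om (n + 1) * ((n + 1 : ℕ) : ℝ) * K * (m * h) := by push_cast; ring
  have h1 := abs_le.1 hp3
  have h2 := abs_le.1 hmo
  have hmo2 : om d * r ^ d * u 0 ≤ r ^ d * ∑ x ∈ bF d r, ms x * u x +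
      K * (K * (1 + Real.log R) + K + 36 * K * L) := by
    have h5 : K * (r ^ d * (K * m / (nrm z + 2 * m) ^ (d + 1)) * (1 + Real.log r) +
          r ^ d / r ^ 2 * u 0 + (∑ x ∈ bF d r, u x) / r ^ 2) ≤
        K * (K * (1 + Real.log R) + K + 36 * K * L) :=
      mul_le_mul_of_nonneg_left (by linarith) (by linarith)
    linarith [h2.1]
  have hlay2 : K * ∑ x ∈ bF d (r + 1) \ bF d (r - 1), u x ≤
      78 * K ^ 2 * L * (m * (m / h * (1 + Real.log R))) := by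
    calc K * ∑ x ∈ bF d (r + 1) \ bF d (r - 1), u x ≤
          K * (2 * (39 * K * L * m ^ 2 * (1 + Real.log R)) / h) :=
          mul_le_mul_of_nonneg_left hlay (by linarith)
      _ = _ := by ring
  -- collect
  have hX : om d * ρ ^ d * u 0 ≤ ∑ x ∈ bF d ρ, u x + (om d * d * K * (m * h) +
      (3 + 2 ^ (d + 2)) * K ^ 2 * L * (1 + Real.log R) +
      78 * K ^ 2 * L * (m * (m / h * (1 + Real.log R))) +
      K * (K * (1 + Real.log R) + K + 36 * K * L)) := by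
    linarith [h1.1]
  refine hX.trans ?_
  have hmh : 0 ≤ m / h := by positivity
  have hZ : (1 + Real.log R) ≤ m * (h + (1 + m / h) * (1 + Real.log R)) := by
    have h5 : (1 + Real.log R) ≤ h + (1 + m / h) * (1 + Real.log R) := by nlinarith
    have h6 : 0 ≤ h + (1 + m / h) * (1 + Real.log R) := by nlinarith
    nlinarith
  have hZ1 : (1 : ℝ) ≤ m * (h + (1 + m / h) * (1 + Real.log R)) := by linarith
  have hY : m * h ≤ m * (h + (1 + m / h) * (1 + Real.log R)) := by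
    apply mul_le_mul_of_nonneg_left _ (by linarith)
    nlinarith
  have hW : m * (m / h * (1 + Real.log R)) ≤ m * (h + (1 + m / h) * (1 + Real.log R)) := by
    apply mul_le_mul_of_nonneg_left _ (by linarith)
    nlinarith
  set Z : ℝ := m * (h + (1 + m / h) * (1 + Real.log R)) with hZdef
  have e1 : om d * d * K * (m * h) ≤ om d * d * K * Z :=
    mul_le_mul_of_nonneg_left hY (by positivity)
  have e2 : (3 + 2 ^ (d + 2)) * K ^ 2 * L * (1 + Real.log R) ≤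
      (3 + 2 ^ (d + 2)) * K ^ 2 * L * Z := mul_le_mul_of_nonneg_left hZ (by positivity)
  have e3 : 78 * K ^ 2 * L * (m * (m / h * (1 + Real.log R))) ≤ 78 * K ^ 2 * L * Z :=
    mul_le_mul_of_nonneg_left hW (by positivity)
  have e4 : K * (K * (1 + Real.log R) + K + 36 * K * L) ≤
      (2 * K ^ 2 + 36 * K ^ 2 * L) * Z := by
    have a1 : K ^ 2 * (1 + Real.log R) ≤ K ^ 2 * Z :=
      mul_le_mul_of_nonneg_left hZ (by positivity)
    have a2 : K ^ 2 * 1 ≤ K ^ 2 * Z := mul_le_mul_of_nonneg_left hZ1 (by positivity)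
    have a3 : 36 * K ^ 2 * L * 1 ≤ 36 * K ^ 2 * L * Z :=
      mul_le_mul_of_nonneg_left hZ1 (by positivity)
    linarith
  have e5 : ((om d * d * K) + (3 + 2 ^ (d + 2)) * K ^ 2 * L + 78 * K ^ 2 * L + 2 * K ^ 2 +
        36 * K ^ 2 * L) * m * (h + (1 + m / h) * (1 + Real.log R)) =
      ((om d * d * K) + (3 + 2 ^ (d + 2)) * K ^ 2 * L + 78 * K ^ 2 * L + 2 * K ^ 2 +
        36 * K ^ 2 * L) * Z := by rw [hZdef]; ring
  rw [e5]
  linarith

end Pool.Agent.H11.BD.OM
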